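import Pool.Agent.helper85.AQ.SpecB

/-!
# Row ta:BIF (MP_3703a7_ag): an element of the inertia group which moves `a_0`
-/

set_option autoImplicit false

namespace Pool.Agent.AQ

open Polynomial
open Pool.Agent.FJ (VT Om chiO rf rs IsFrobO)
open Pool.Agent.TD (zK DvK bC mK IsPhiK Stab)
open scoped TensorProduct NumberField

noncomputable section

/-- an element of prime order which permutes as many points as its order -/
theorem BIF_perm (n : ℕ) (hn : (n + 1).Prime) (π : Equiv.Perm (Fin (n + 1))) (h1 : π ^ (n + 1) = 1) (h2 : π ≠ 1)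
    (i : Fin (n + 1)) : π i ≠ i := by
  have hfact : Fact (n + 1).Prime := ⟨hn⟩
  have ho : orderOf π = n + 1 := orderOf_eq_prime h1 h2
  have hle : π.support.card ≤ n + 1 := by
    refine (Finset.card_le_univ _).trans ?_
    rw [Fintype.card_fin]
  have hc : π.IsCycle := Equiv.Perm.isCycle_of_prime_order (by rw [ho]; exact hn) (by rw [ho]; omega)
  have h3 : π.support.card = n + 1 := by rw [← hc.orderOf, ho]
  have h4 : π.support = Finset.univ := by
    rw [← Finset.card_eq_iff_eq_univ, h3, Fintype.card_fin]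
  have h5 : i ∈ π.support := by rw [h4]; exact Finset.mem_univ i
  exact Equiv.Perm.mem_support.1 h5

theorem BIF_rat (L : Type) [Field L] [CharZero L] (A : Algebra ℚ L) (h : @IsGalois ℚ _ L _ A) : IsGalois ℚ L := by
  have h1 : A = DivisionRing.toRatAlgebra := Subsingleton.elim _ _
  subst h1
  exact h

/-- the splitting field -/
theorem BIF_split (L : IntermediateField ℚ Om) (F : ℚ[X]) (hL : L = IntermediateField.adjoin ℚ (F.rootSet Om)) :
    FiniteDimensional ℚ L ∧ IsGalois ℚ L := by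
  subst hL
  have h1 : @IsSplittingField ℚ (IntermediateField.adjoin ℚ (F.rootSet Om)) _ _
      (IntermediateField.adjoin ℚ (F.rootSet Om)).algebra' F :=
    IntermediateField.adjoin_rootSet_isSplittingField (IsAlgClosed.splits _)
  have h2 : FiniteDimensional ℚ (IntermediateField.adjoin ℚ (F.rootSet Om)) :=
    @Polynomial.IsSplittingField.finiteDimensional ℚ _ _ _ _ F h1
  have h3 := @Normal.of_isSplittingField ℚ _ _ _ (IntermediateField.adjoin ℚ (F.rootSet Om)).algebra' F h1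
  have h4 : @Algebra.IsSeparable ℚ (IntermediateField.adjoin ℚ (F.rootSet Om)) _ _
      (IntermediateField.adjoin ℚ (F.rootSet Om)).algebra' := by
    have h5 := @Normal.toIsAlgebraic ℚ _ _ _ _ h3
    exact @Algebra.IsAlgebraic.isSeparable_of_perfectField ℚ _ _ _ _ h5 _
  exact ⟨h2, BIF_rat _ _ (@IsGalois.mk ℚ _ _ _ _ h4 h3)⟩

/-- a power of an automorphism permutes the roots as the power of the permutation -/
theorem BIF_pow {L : Type} [Field L] [Algebra ℚ L] (n : ℕ) (a : Fin (n + 1) → L) (τ : Gal(L/ℚ)) (π : Equiv.Perm (Fin (n + 1)))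
    (h : ∀ j, τ (a j) = a (π j)) (k : ℕ) (j : Fin (n + 1)) : (τ ^ k) (a j) = a ((π ^ k) j) := by
  induction k generalizing j with
  | zero => simp
  | succ k ih =>
    rw [pow_succ, pow_succ, Equiv.Perm.mul_apply, ← ih, ← h]
    rfl

/-- an automorphism of prime order moves every root -/
theorem BIF_move {L : Type} [Field L] [Algebra ℚ L] (n : ℕ) (hn : (n + 1).Prime) (a : Fin (n + 1) → L) (ha : Function.Injective a)
    (F : ℤ[X]) (hF : F.map (Int.castRingHom L) = ∏ j, (X - C (a j)))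
    (τ : Gal(L/ℚ)) (hτ : orderOf τ = n + 1) (hgen : (∀ j, τ (a j) = a j) → τ = 1) (i : Fin (n + 1)) : τ (a i) ≠ a i := by
  have hroot : ∀ x : L, (F.map (Int.castRingHom L)).eval x = 0 ↔ ∃ j, x = a j := by
    intro x
    rw [hF, eval_prod, Finset.prod_eq_zero_iff]
    constructor
    · rintro ⟨j, -, hj⟩
      rw [eval_sub, eval_X, eval_C, sub_eq_zero] at hj
      exact ⟨j, hj⟩
    · rintro ⟨j, hj⟩
      refine ⟨j, Finset.mem_univ j, ?_⟩
      rw [eval_sub, eval_X, eval_C, sub_eq_zero]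
      exact hj
  have hex : ∀ j, ∃ j', τ (a j) = a j' := by
    intro j
    rw [← hroot]
    have h1 : (F.map (Int.castRingHom L)).eval (a j) = 0 := (hroot _).2 ⟨j, rfl⟩
    have h2 := congrArg (τ : L →+* L) h1
    rw [map_zero, eval_map, hom_eval₂] at h2
    rw [eval_map]
    have h3 : ((τ : L →+* L)).comp (Int.castRingHom L) = Int.castRingHom L := RingHom.ext_int _ _
    rw [h3] at h2
    exact h2
  choose f hf using hex
  have hfinj : Function.Injective f := by
    intro j j' hjj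
    apply ha
    apply τ.injective
    rw [hf, hf, hjj]
  obtain ⟨π, hπ⟩ : ∃ π : Equiv.Perm (Fin (n + 1)), ∀ j, π j = f j :=
    ⟨Equiv.ofBijective f (Finite.injective_iff_bijective.1 hfinj), fun j => rfl⟩
  have hτπ : ∀ j, τ (a j) = a (π j) := fun j => by rw [hf, hπ]
  have h1 : π ^ (n + 1) = 1 := by
    have h4 : τ ^ (n + 1) = 1 := by
      have h5 := pow_orderOf_eq_one τ
      rwa [hτ] at h5
    refine Equiv.ext fun j => ?_
    have h2 := BIF_pow n a τ π hτπ (n + 1) j
    rw [h4] at h2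
    exact (ha h2).symm
  have h2 : π ≠ 1 := by
    intro hc
    have h3 : τ = 1 := hgen fun j => by
      rw [hτπ, hc]
      rfl
    rw [h3, orderOf_one] at hτ
    have := hn.one_lt
    omega
  intro hc
  rw [hτπ] at hc
  exact BIF_perm n hn π h1 h2 i (ha hc)

/-- the inertia group of a prime with `a ^ m * v = p * u` contains an element of order `m` -/
theorem BIF_inertia (L : Type) [Field L] [NumberField L] [IsGalois ℚ L] (p m : ℕ) (hp : p.Prime) (hm : m.Prime)
    (P : Ideal (𝓞 L)) (hP : P.IsPrime) (hpP : ((p : ℕ) : 𝓞 L) ∈ P) (a u v : 𝓞 L) (hv : v ∉ P) (hu : u ∉ P)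
    (h : a ^ m * v = (p : 𝓞 L) * u) : ∃ τ : Gal(L/ℚ), τ ∈ P.inertia Gal(L/ℚ) ∧ orderOf τ = m := by
  have hpZ : Prime ((p : ℕ) : ℤ) := Nat.prime_iff_prime_int.mp hp
  have hlies : P.LiesOver (Ideal.span {((p : ℕ) : ℤ)}) := by
    refine (Ideal.liesOver_span_iff hP.ne_top hpZ).mpr ?_
    simpa using hpP
  have hprime : (Ideal.span {((p : ℕ) : ℤ)}).IsPrime := (Ideal.span_singleton_prime hpZ.ne_zero).2 hpZ
  have hp0 : ((p : ℕ) : 𝓞 L) ≠ 0 := by exact_mod_cast hp.ne_zero
  have hmap : (Ideal.span {((p : ℕ) : ℤ)}).map (algebraMap ℤ (𝓞 L)) = Ideal.span {((p : ℕ) : 𝓞 L)} := by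
    rw [Ideal.map_span, Set.image_singleton]
    simp
  have hbot : (Ideal.span {((p : ℕ) : ℤ)}).map (algebraMap ℤ (𝓞 L)) ≠ ⊥ := by
    rw [hmap, Ne, Ideal.span_singleton_eq_bot]
    exact hp0
  have hcard : Nat.card (P.inertia Gal(L/ℚ)) = P.ramificationIdx ℤ := by
    rw [Ideal.card_inertia_eq_ramificationIdxIn (G := Gal(L/ℚ)) (Ideal.span {((p : ℕ) : ℤ)}) P,
      Ideal.ramificationIdxIn_eq_ramificationIdx (Ideal.span {((p : ℕ) : ℤ)}) P Gal(L/ℚ)]
  have hmult := Ideal.IsDedekindDomain.ramificationIdx_eq_multiplicity (Ideal.span {((p : ℕ) : ℤ)}) P hbot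
  have hP0 : P ≠ ⊥ := by
    rintro rfl
    exact hp0 (by simpa using hpP)
  have hPp : Prime P := Ideal.prime_of_isPrime hP0 hP
  have ha0 : a ≠ 0 := by
    rintro rfl
    rw [zero_pow hm.ne_zero, zero_mul] at h
    rcases mul_eq_zero.1 h.symm with h1 | h1
    · exact hp0 h1
    · exact hu (h1 ▸ P.zero_mem)
  have hdvd : m ∣ multiplicity P (Ideal.span {((p : ℕ) : 𝓞 L)}) := by
    have h1 : Ideal.span {a} ^ m * Ideal.span {v} = Ideal.span {((p : ℕ) : 𝓞 L)} * Ideal.span {u} := by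
      rw [Ideal.span_singleton_pow, Ideal.span_singleton_mul_span_singleton, h,
        Ideal.span_singleton_mul_span_singleton]
    have h2 : ∀ w : 𝓞 L, w ∉ P → emultiplicity P (Ideal.span {w}) = 0 := by
      intro w hw
      rw [emultiplicity_eq_zero, Ideal.dvd_span_singleton]
      exact hw
    have h3 : m * emultiplicity P (Ideal.span {a}) = emultiplicity P (Ideal.span {((p : ℕ) : 𝓞 L)}) := by
      have h4 := congrArg (emultiplicity P) h1
      rw [emultiplicity_mul hPp, emultiplicity_mul hPp, emultiplicity_pow hPp, h2 v hv, h2 u hu, add_zero,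
        add_zero] at h4
      exact h4
    have h5 : FiniteMultiplicity P (Ideal.span {a}) := FiniteMultiplicity.of_prime_left hPp (by
      rw [Ne, Ideal.zero_eq_bot, Ideal.span_singleton_eq_bot]; exact ha0)
    rw [h5.emultiplicity_eq_multiplicity] at h3
    have h6 : emultiplicity P (Ideal.span {((p : ℕ) : 𝓞 L)}) = ((m * multiplicity P (Ideal.span {a}) : ℕ) : ℕ∞) := by
      rw [← h3]; push_cast; rfl
    rw [multiplicity_eq_of_emultiplicity_eq_some h6]
    exact Dvd.intro _ rfl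
  have hfact : Fact m.Prime := ⟨hm⟩
  obtain ⟨x, hx⟩ := exists_prime_orderOf_dvd_card' (G := P.inertia Gal(L/ℚ)) m (by
    rw [hcard, hmult, hmap]
    exact hdvd)
  refine ⟨x, x.2, ?_⟩
  rw [← hx, Subgroup.orderOf_coe]


/-- an automorphism which fixes the generators -/
theorem BIF_fix (S : Set Om) (L : IntermediateField ℚ Om) (hL : L = IntermediateField.adjoin ℚ S) (hS : ∀ x ∈ S, x ∈ L)
    (τ : Gal(L/ℚ)) (h : ∀ x (hx : x ∈ S), τ ⟨x, hS x hx⟩ = ⟨x, hS x hx⟩) : τ = 1 := by
  refine AlgEquiv.ext fun x => ?_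
  obtain ⟨x, hx⟩ := x
  show τ ⟨x, hx⟩ = ⟨x, hx⟩
  have hx' : x ∈ IntermediateField.adjoin ℚ S := hL ▸ hx
  suffices hs : ∀ hx : x ∈ L, τ ⟨x, hx⟩ = ⟨x, hx⟩ from hs hx
  clear hx
  induction hx' using IntermediateField.adjoin_induction with
  | mem x hxS => exact fun _ => h x hxS
  | algebraMap r =>
    intro hr
    have h1 : (⟨algebraMap ℚ Om r, hr⟩ : L) = ((r : ℚ) : L) := by
      apply Subtype.ext
      show algebraMap ℚ Om r = (((r : ℚ) : L) : Om)
      simp
    rw [h1, map_ratCast]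
  | add x y hx hy h1 h2 =>
    intro hxy
    have hx : x ∈ L := hL ▸ hx
    have hy : y ∈ L := hL ▸ hy
    have h3 : (⟨x + y, hxy⟩ : L) = ⟨x, hx⟩ + ⟨y, hy⟩ := rfl
    rw [h3, map_add, h1 hx, h2 hy]
  | inv x hx h1 =>
    intro hxi
    have hx : x ∈ L := hL ▸ hx
    have h3 : (⟨x⁻¹, hxi⟩ : L) = (⟨x, hx⟩ : L)⁻¹ := rfl
    rw [h3, map_inv₀, h1 hx]
  | mul x y hx hy h1 h2 =>
    intro hxy
    have hx : x ∈ L := hL ▸ hx
    have hy : y ∈ L := hL ▸ hy
    have h3 : (⟨x * y, hxy⟩ : L) = ⟨x, hx⟩ * ⟨y, hy⟩ := rfl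
    rw [h3, map_mul, h1 hx, h2 hy]

/-- integers are in the valuation ring -/
theorem BIF_int (O : ValuationSubring Om) (z : Om) (hz : IsIntegral ℤ z) : z ∈ O := by
  have h1 : IsIntegral O z := hz.tower_top
  obtain ⟨y, hy⟩ := IsIntegrallyClosed.algebraMap_eq_of_integral h1
  rw [← hy]
  exact y.2

theorem BIF (hBEI : BEI_stmt) (hBIL : BIL_stmt) : BIF_stmt := by
  classical
  intro O p n _ _ hn hnp F hFm hFe a hF
  have hp : p.Prime := Fact.out
  have hp0 : ((p : ℕ) : rf O) = 0 := CharP.cast_eq_zero _ p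
  have hn0 : ((n + 1 : ℕ) : rf O) ≠ 0 := by
    rw [Ne, CharP.cast_eq_zero_iff (rf O) p]
    intro h
    exact hnp ((Nat.prime_dvd_prime_iff_eq hp hn).1 h).symm
  obtain ⟨ha0, ⟨x, hx, hxa⟩, α, hα, -, hαinj⟩ := hBEI Om O p n hp hp0 hn0 F hFm hFe a hF
  have hainj : Function.Injective a := by
    intro j j' h
    apply hαinj
    have h1 : α j = α j' := Subtype.ext (by rw [hα, hα, h])
    show rs O (α j) = rs O (α j')
    rw [h1]
  have hroot : ∀ z : Om, (F.map (Int.castRingHom Om)).eval z = 0 ↔ ∃ j, z = a j := by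
    intro z
    rw [hF, eval_prod, Finset.prod_eq_zero_iff]
    constructor
    · rintro ⟨j, -, hj⟩
      rw [eval_sub, eval_X, eval_C, sub_eq_zero] at hj
      exact ⟨j, hj⟩
    · rintro ⟨j, hj⟩
      refine ⟨j, Finset.mem_univ j, ?_⟩
      rw [eval_sub, eval_X, eval_C, sub_eq_zero]
      exact hj
  have hev : ∀ z : Om, aeval z (F.map (Int.castRingHom ℚ)) = (F.map (Int.castRingHom Om)).eval z := by
    intro z
    rw [aeval_def, eval₂_map, eval_map]
    congr 1
  have hF0 : F.map (Int.castRingHom ℚ) ≠ 0 := (hFm.map _).ne_zero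
  have hrs : ∀ z : Om, z ∈ (F.map (Int.castRingHom ℚ)).rootSet Om ↔ ∃ j, z = a j := by
    intro z
    rw [mem_rootSet, ← hroot, ← hev]
    exact ⟨fun h => h.2, fun h => ⟨hF0, h⟩⟩
  obtain ⟨L, hL⟩ : ∃ L : IntermediateField ℚ Om, L = IntermediateField.adjoin ℚ ((F.map (Int.castRingHom ℚ)).rootSet Om) :=
    ⟨_, rfl⟩
  obtain ⟨hfd, hgal⟩ := BIF_split L _ hL
  have hnf : NumberField L := ⟨⟩
  have hS : ∀ z ∈ (F.map (Int.castRingHom ℚ)).rootSet Om, z ∈ L := by
    intro z hz
    rw [hL]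
    exact IntermediateField.subset_adjoin ℚ _ hz
  have haL : ∀ j, a j ∈ L := fun j => hS _ ((hrs _).2 ⟨j, rfl⟩)
  have hcoe : ∀ z w : L, (z : Om) = (w : Om) → z = w := fun z w h => Subtype.ext h
  -- the polynomial over `L`
  have hFL : F.map (Int.castRingHom L) = ∏ j, (X - C (⟨a j, haL j⟩ : L)) := by
    apply Polynomial.map_injective (algebraMap L Om) (algebraMap L Om).injective
    rw [Polynomial.map_map, Polynomial.map_prod]
    have h1 : (algebraMap L Om).comp (Int.castRingHom L) = Int.castRingHom Om := RingHom.ext_int _ _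
    rw [h1, hF]
    refine Finset.prod_congr rfl fun j _ => ?_
    rw [Polynomial.map_sub, Polynomial.map_X, Polynomial.map_C]
    rfl
  -- the map to `O`
  have hO : ∀ z : 𝓞 L, ((z : L) : Om) ∈ O := by
    intro z
    refine BIF_int O _ ?_
    exact (NumberField.RingOfIntegers.isIntegral_coe z).map (algebraMap L Om).toIntAlgHom
  obtain ⟨f, hf⟩ : ∃ f : 𝓞 L →+* O, ∀ z : 𝓞 L, ((f z : O) : Om) = ((z : L) : Om) :=
    ⟨((algebraMap L Om).comp (algebraMap (𝓞 L) L)).codRestrict O.toSubring hO, fun z => rfl⟩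
  have hfx : ∀ (z : 𝓞 L) (h : ((z : L) : Om) ∈ O), f z = ⟨((z : L) : Om), h⟩ := fun z h => Subtype.ext (hf z)
  obtain ⟨P, hPmem, hP⟩ : ∃ P : Ideal (𝓞 L), (∀ z, z ∈ P ↔ rs O (f z) = 0) ∧ P.IsPrime :=
    ⟨RingHom.ker ((rs O).comp f), fun z => Iff.rfl, RingHom.ker_isPrime _⟩
  have hpP : ((p : ℕ) : 𝓞 L) ∈ P := by
    rw [hPmem, map_natCast, map_natCast]
    exact hp0
  have hpL : ((p : ℕ) : L) ≠ 0 := by exact_mod_cast hp.ne_zero
  have hP0 : P ≠ ⊥ := by
    rintro rfl
    have h1 : ((p : ℕ) : 𝓞 L) = 0 := by simpa using hpP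
    exact hp.ne_zero (by exact_mod_cast h1)
  -- fractions
  have hfrac : ∀ z : L, (z : Om) ∈ O → ∃ u v : 𝓞 L, v ∉ P ∧ z * (v : L) = (u : L) := by
    intro z hz
    obtain ⟨u, ⟨d, hd⟩, h | h⟩ :=
      IsDedekindDomain.HeightOneSpectrum.exists_primeCompl_mul_eq_or_mul_eq (⟨P, hP, hP0⟩ : IsDedekindDomain.HeightOneSpectrum (𝓞 L)) z
    · exact ⟨u, d, hd, h⟩
    · have hu : u ∉ P := by
        intro hu
        apply hd
        show d ∈ P
        rw [hPmem] at hu ⊢
        have h1 : f d = ⟨(z : Om), hz⟩ * f u := by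
          apply Subtype.ext
          rw [hf]
          show ((d : L) : Om) = (z : Om) * (f u : Om)
          rw [hf]
          have h2 := congrArg (fun w : L => (w : Om)) h
          exact h2.symm
        rw [h1, map_mul, hu, mul_zero]
      refine ⟨d, u, hu, h⟩
  -- the ramification
  have haint : IsIntegral ℤ (⟨a 0, haL 0⟩ : L) := by
    refine ⟨F, hFm, ?_⟩
    have h1 : (F.map (Int.castRingHom L)).eval (⟨a 0, haL 0⟩ : L) = 0 := by
      rw [hFL, eval_prod, Finset.prod_eq_zero_iff]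
      refine ⟨0, Finset.mem_univ _, ?_⟩
      rw [eval_sub, eval_X, eval_C, sub_self]
    rw [eval_map] at h1
    exact h1
  obtain ⟨u, v, hv, huv⟩ := hfrac ((⟨a 0, haL 0⟩ : L) ^ (n + 1) / ((p : ℕ) : L)) (by
    have h1 : ((((⟨a 0, haL 0⟩ : L) ^ (n + 1) / ((p : ℕ) : L) : L)) : Om) = (x : Om) := by
      have hpO : ((p : ℕ) : Om) ≠ 0 := by exact_mod_cast hp.ne_zero
      have h2 : ((((⟨a 0, haL 0⟩ : L) ^ (n + 1) / ((p : ℕ) : L) : L)) : Om) = a 0 ^ (n + 1) / ((p : ℕ) : Om) := by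
        push_cast
        rfl
      rw [h2, hxa]
      field_simp
    rw [h1]
    exact x.2)
  have hxL : ((((⟨a 0, haL 0⟩ : L) ^ (n + 1) / ((p : ℕ) : L) : L)) : Om) = (x : Om) := by
      have hpO : ((p : ℕ) : Om) ≠ 0 := by exact_mod_cast hp.ne_zero
      have h2 : ((((⟨a 0, haL 0⟩ : L) ^ (n + 1) / ((p : ℕ) : L) : L)) : Om) = a 0 ^ (n + 1) / ((p : ℕ) : Om) := by
        push_cast
        rfl
      rw [h2, hxa]
      field_simp
  have hu : u ∉ P := by
    rw [hPmem] at hv ⊢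
    have h1 : f u = x * f v := by
      apply Subtype.ext
      rw [hf]
      show ((u : L) : Om) = (x : Om) * (f v : Om)
      rw [hf, ← hxL]
      exact (congrArg (fun w : L => (w : Om)) huv).symm
    rw [h1, map_mul]
    exact mul_ne_zero ((hx.map (rs O)).ne_zero) hv
  obtain ⟨τ, hτI, hτo⟩ := BIF_inertia L p (n + 1) hp hn P hP hpP ⟨_, haint⟩ u v hv hu (by
    apply NumberField.RingOfIntegers.coe_injective
    rw [map_mul, map_mul, map_pow, map_natCast]
    show ((⟨a 0, haL 0⟩ : L)) ^ (n + 1) * (v : L) = ((p : ℕ) : L) * (u : L)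
    rw [← huv]
    field_simp)
  have hmove := BIF_move n hn (fun j => (⟨a j, haL j⟩ : L)) (fun j j' h => hainj (congrArg (fun w : L => (w : Om)) h)) F hFL τ hτo
    (fun h => BIF_fix _ L hL hS τ (fun z hz => by
      obtain ⟨j, rfl⟩ := (hrs z).1 hz
      exact h j)) 0
  -- the lifting
  have hsm : ∀ z : 𝓞 L, ((τ • z : 𝓞 L) : L) = τ (z : L) := fun z => rfl
  obtain ⟨σ, hσ, hσO, hσr⟩ := hBIL O L τ (by
    intro z hz
    obtain ⟨u, v, hv, huv⟩ := hfrac z hz
    have hτv : τ • v - v ∈ P := hτI v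
    have hτu : τ • u - u ∈ P := hτI u
    have hv' : τ • v ∉ P := by
      intro hc
      apply hv
      have := P.sub_mem hc hτv
      rwa [sub_sub_cancel] at this
    have hfv : IsUnit (f v) := by
      rw [← IsLocalRing.residue_ne_zero_iff_isUnit]
      exact fun h => hv ((hPmem v).2 h)
    have hfv' : IsUnit (f (τ • v)) := by
      rw [← IsLocalRing.residue_ne_zero_iff_isUnit]
      exact fun h => hv' ((hPmem _).2 h)
    obtain ⟨c, hc⟩ := hfv.exists_right_inv
    obtain ⟨c', hc'⟩ := hfv'.exists_right_inv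
    refine ⟨f (v * (τ • u - u) - u * (τ • v - v)) * (c * c'), ?_, ?_⟩
    · have e1 : z * (v : L) = (u : L) := huv
      have e2 : τ z * ((τ • v : 𝓞 L) : L) = ((τ • u : 𝓞 L) : L) := by
        rw [hsm, hsm, ← map_mul, e1]
      have e3 := congrArg (fun w : L => (w : Om)) e1
      have e4 := congrArg (fun w : L => (w : Om)) e2
      have e5 := congrArg (fun w : O => (w : Om)) hc
      have e6 := congrArg (fun w : O => (w : Om)) hc'
      have e3' : (z : Om) * (f v : Om) = (f u : Om) := by rw [hf, hf]; exact e3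
      have e4' : ((τ z : L) : Om) * (f (τ • v) : Om) = (f (τ • u) : Om) := by rw [hf, hf]; exact e4
      have e5' : (f v : Om) * (c : Om) = 1 := e5
      have e6' : (f (τ • v) : Om) * (c' : Om) = 1 := e6
      have e7 : ((f (v * (τ • u - u) - u * (τ • v - v)) * (c * c') : O) : Om) =
          ((f v : Om) * ((f (τ • u) : Om) - (f u : Om)) - (f u : Om) * ((f (τ • v) : Om) - (f v : Om))) * ((c : Om) * (c' : Om)) := by
        rw [map_sub, map_mul, map_mul, map_sub, map_sub]
        rfl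
      rw [e7, ← e3', ← e4']
      linear_combination (((τ z : L) : Om) - (z : Om)) * ((f (τ • v) : Om) * (c' : Om)) * e5' + (((τ z : L) : Om) - (z : Om)) * e6'
    · rw [map_mul]
      have h1 : rs O (f (v * (τ • u - u) - u * (τ • v - v))) = 0 :=
        (hPmem _).1 (P.sub_mem (P.mul_mem_left _ hτu) (P.mul_mem_left _ hτv))
      rw [h1, zero_mul])
  refine ⟨σ, hσO, hσr, ?_⟩
  intro hc
  apply hmove
  apply hcoe
  rw [← hσ]
  exact hc

end

end Pool.Agent.AQ
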